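import Pool.Agent.T9h5.GG.Spec2
import Pool.Agent.T9h71.GF.CountOfCore

/-!
# The count theorem from the core estimate (`Ar A Z`)
-/

set_option autoImplicit false
set_option linter.unusedSectionVars false

namespace Pool.Agent.T9h71.GG

open Finset H39Gon Pool.Agent.T9h5.GG
open Pool.Agent.T9h42.GF (Ix mix av ce)
open Pool.Agent.T9h71.GF (av_ce_mono ce_block av_block sum_pi exists_split)

/-! ### heights -/

section ht

variable {A Z : Type} [CommRing A] [IsDomain A] (S : Ar A Z)

theorem ht_mul {x y : A} (hx : x ≠ 0) (hy : y ≠ 0) : S.ht (x * y) = S.ht x + S.ht y := by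
  have h1 := S.dE_dv (x * y) (mul_ne_zero hx hy)
  rw [S.dv_mul x y hx hy] at h1
  have h2 : dEg S.dg (S.dv x + S.dv y) = dEg S.dg (S.dv x) + dEg S.dg (S.dv y) := by
    unfold dEg
    exact Finsupp.sum_add_index' (fun _ => by simp) (fun _ _ _ => by ring)
  rw [h2, S.dE_dv x hx, S.dE_dv y hy, ← Nat.mul_add] at h1
  exact (Nat.eq_of_mul_eq_mul_left S.δ_pos h1).symm

theorem ht_one : S.ht 1 = 0 := by
  have h1 := ht_mul S (x := 1) (y := 1) one_ne_zero one_ne_zero
  rw [mul_one] at h1
  omega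

theorem ht_neg {x : A} (hx : x ≠ 0) : S.ht (-x) = S.ht x := by
  have h0 : (-1 : A) ≠ 0 := neg_ne_zero.2 one_ne_zero
  have h1 := ht_mul S h0 h0
  rw [neg_mul_neg, mul_one, ht_one] at h1
  have h2 := ht_mul S h0 hx
  rw [neg_one_mul] at h2
  omega

theorem ht_add_eq {x y : A} (hx : x ≠ 0) (hy : y ≠ 0) (h : S.ht y < S.ht x) :
    S.ht (x + y) = S.ht x := by
  have h0 : x + y ≠ 0 := by
    intro h0
    have h1 : x = -y := eq_neg_of_add_eq_zero_left h0
    rw [h1, ht_neg S hy] at h
    exact lt_irrefl _ h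
  have h1 := S.ht_add x y hx hy h0
  have h2 : x = (x + y) + -y := by ring
  have h3 := S.ht_add (x + y) (-y) h0 (neg_ne_zero.2 hy) (by rw [← h2]; exact hx)
  rw [← h2, ht_neg S hy] at h3
  rcases le_max_iff.1 h3 with h4 | h4
  · rcases le_max_iff.1 h1 with h5 | h5 <;> omega
  · omega

theorem mon_prod {ι : Type} (s : Finset ι) (f : ι → A) (h : ∀ i ∈ s, S.mon (f i)) :
    S.mon (∏ i ∈ s, f i) :=
  Finset.prod_induction f S.mon S.mon_mul S.mon_one h

theorem ht_prod {ι : Type} (s : Finset ι) (f : ι → A) (h : ∀ i ∈ s, S.mon (f i)) :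
    S.ht (∏ i ∈ s, f i) = ∑ i ∈ s, S.ht (f i) := by
  classical
  induction s using Finset.induction_on with
  | empty => rw [Finset.prod_empty, Finset.sum_empty, ht_one]
  | insert a s ha ih =>
    rw [Finset.prod_insert ha, Finset.sum_insert ha,
      ht_mul S (S.mon_ne _ (h a (Finset.mem_insert_self _ _)))
        (S.mon_ne _ (mon_prod S s f fun i hi => h i (Finset.mem_insert_of_mem hi))),
      ih fun i hi => h i (Finset.mem_insert_of_mem hi)]

end ht

/-! ### the slots -/

section slots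

variable {A : Type} [CommRing A] (K : ℕ → Finset A) {N s a b n : ℕ} (d e L : ℕ)

/-- the assignments, in two blocks: the fixed slots and the free slots -/
abbrev Z1 (a b : ℕ) : Type :=
  {x // x ∈ K L} × (Fin a → {x // x ∈ K d}) × (Fin b → {x // x ∈ K e})

/-- the free slots -/
abbrev Z2 (n : ℕ) : Type := (Fin n → {x // x ∈ K d}) × {x // x ∈ K e}

/-- from blocks to assignments -/
def Dd (e1 : Fin N ≃ Fin a ⊕ Fin n) (e2 : Fin s ≃ Fin b ⊕ Unit) :
    Z1 K d e L a b × Z2 K d e n → ∀ i, Pt K N s d e L i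
  | z, none => z.1.1
  | z, some (Sum.inl i) => Sum.elim z.1.2.1 z.2.1 (e1 i)
  | z, some (Sum.inr j) => Sum.elim z.1.2.2 (fun _ => z.2.2) (e2 j)

/-- from assignments to blocks -/
def Ee (e1 : Fin N ≃ Fin a ⊕ Fin n) (e2 : Fin s ≃ Fin b ⊕ Unit)
    (x : ∀ i, Pt K N s d e L i) : Z1 K d e L a b × Z2 K d e n :=
  ((x none, fun l => x (some (Sum.inl (e1.symm (Sum.inl l)))),
    fun l => x (some (Sum.inr (e2.symm (Sum.inl l))))),
    (fun l => x (some (Sum.inl (e1.symm (Sum.inr l)))), x (some (Sum.inr (e2.symm (Sum.inr ()))))))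

/-- the equivalence -/
def Ph (e1 : Fin N ≃ Fin a ⊕ Fin n) (e2 : Fin s ≃ Fin b ⊕ Unit) :
    Z1 K d e L a b × Z2 K d e n ≃ ∀ i, Pt K N s d e L i where
  toFun := Dd K d e L e1 e2
  invFun := Ee K d e L e1 e2
  left_inv z := by
    obtain ⟨⟨c, u, t⟩, v, y⟩ := z
    refine Prod.ext (Prod.ext rfl (Prod.ext ?_ ?_)) (Prod.ext ?_ ?_)
    · funext l
      show Sum.elim u v (e1 (e1.symm (Sum.inl l))) = u l
      rw [Equiv.apply_symm_apply]; rfl
    · funext l
      show Sum.elim t (fun _ => y) (e2 (e2.symm (Sum.inl l))) = t l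
      rw [Equiv.apply_symm_apply]; rfl
    · funext l
      show Sum.elim u v (e1 (e1.symm (Sum.inr l))) = v l
      rw [Equiv.apply_symm_apply]; rfl
    · show Sum.elim t (fun _ => y) (e2 (e2.symm (Sum.inr ()))) = y
      rw [Equiv.apply_symm_apply]; rfl
  right_inv x := by
    funext i
    rcases i with _ | i | j
    · rfl
    · show Sum.elim (fun l => x (some (Sum.inl (e1.symm (Sum.inl l)))))
        (fun l => x (some (Sum.inl (e1.symm (Sum.inr l))))) (e1 i) = x (some (Sum.inl i))
      rcases h : e1 i with l | l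
      · have : i = e1.symm (Sum.inl l) := by rw [← h, Equiv.symm_apply_apply]
        subst this; rfl
      · have : i = e1.symm (Sum.inr l) := by rw [← h, Equiv.symm_apply_apply]
        subst this; rfl
    · show Sum.elim (fun l => x (some (Sum.inr (e2.symm (Sum.inl l)))))
        (fun _ => x (some (Sum.inr (e2.symm (Sum.inr ()))))) (e2 j) = x (some (Sum.inr j))
      rcases h : e2 j with l | l
      · have : j = e2.symm (Sum.inl l) := by rw [← h, Equiv.symm_apply_apply]
        subst this; rfl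
      · have : j = e2.symm (Sum.inr ()) := by rw [← h, Equiv.symm_apply_apply]
        subst this; rfl

theorem mix_Ph (e1 : Fin N ≃ Fin a ⊕ Fin n) (e2 : Fin s ≃ Fin b ⊕ Unit) (T : Finset (Ix N s))
    (h0 : none ∈ T) (h1 : ∀ i, some (Sum.inl i) ∈ T ↔ ∃ l, e1 i = Sum.inl l)
    (h2 : ∀ j, some (Sum.inr j) ∈ T ↔ ∃ l, e2 j = Sum.inl l)
    (z : Z1 K d e L a b) (y : Z2 K d e n) (z' : Z1 K d e L a b) (y' : Z2 K d e n) :
    mix T (Ph K d e L e1 e2 (z, y)) (Ph K d e L e1 e2 (z', y')) = Ph K d e L e1 e2 (z, y') := by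
  funext i
  unfold mix
  rcases i with _ | i | j
  · rw [if_pos h0]; rfl
  · show (if _ then Sum.elim z.2.1 y.1 (e1 i) else Sum.elim z'.2.1 y'.1 (e1 i)) =
      Sum.elim z.2.1 y'.1 (e1 i)
    have h3 := h1 i
    rcases h : e1 i with l | l
    · rw [if_pos (h3.2 ⟨l, h⟩)]; rfl
    · rw [if_neg (fun h4 => by obtain ⟨l', h5⟩ := h3.1 h4; rw [h] at h5; cases h5)]; rfl
  · show (if _ then Sum.elim z.2.2 (fun _ => y.2) (e2 j) else
      Sum.elim z'.2.2 (fun _ => y'.2) (e2 j)) = Sum.elim z.2.2 (fun _ => y'.2) (e2 j)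
    have h3 := h2 j
    rcases h : e2 j with l | l
    · rw [if_pos (h3.2 ⟨l, h⟩)]; rfl
    · rw [if_neg (fun h4 => by obtain ⟨l', h5⟩ := h3.1 h4; rw [h] at h5; cases h5)]; rfl

theorem Wf_Ph (α β : A) (e1 : Fin N ≃ Fin a ⊕ Fin n) (e2 : Fin s ≃ Fin b ⊕ Unit)
    (z : Z1 K d e L a b) (y : Z2 K d e n) :
    Wf K α β N s d e L (Ph K d e L e1 e2 (z, y)) =
      (K L).card * (open Classical in if (α * ∏ i, (z.2.1 i).1) * ∏ i, (y.1 i).1 +
        β * ((∏ i, (z.2.2 i).1) * y.2.1) = z.1.1 then (1 : ℝ) else 0) := by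
  classical
  have p1 : ∏ i, (Ph K d e L e1 e2 (z, y) (some (Sum.inl i))).1 =
      (∏ i, (z.2.1 i).1) * ∏ i, (y.1 i).1 := by
    show ∏ i, (Sum.elim z.2.1 y.1 (e1 i)).1 = _
    rw [e1.prod_comp (fun l => (Sum.elim z.2.1 y.1 l).1), Fintype.prod_sum_type]
    rfl
  have p2 : ∏ j, (Ph K d e L e1 e2 (z, y) (some (Sum.inr j))).1 =
      (∏ i, (z.2.2 i).1) * y.2.1 := by
    show ∏ j, (Sum.elim z.2.2 (fun _ => y.2) (e2 j)).1 = _
    rw [e2.prod_comp (fun l => (Sum.elim z.2.2 (fun _ => y.2) l).1), Fintype.prod_sum_type]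
    simp
  unfold Wf
  rw [p1, p2]
  have p3 : ((Ph K d e L e1 e2 (z, y) none).1 : A) = z.1.1 := rfl
  rw [p3, ← mul_assoc α]
  split_ifs <;> simp

/-- the normalised count as a sum over the free slots -/
theorem wn_eq (α β c : A) (u : Fin a → {x // x ∈ K d}) (t : Fin b → {x // x ∈ K e}) :
    wn (K L) (K d) (K e) n β (α * ∏ i, (u i).1) (∏ i, (t i).1) c =
      (∑ y : Z2 K d e n, (K L).card * (open Classical in
        if (α * ∏ i, (u i).1) * ∏ i, (y.1 i).1 + β * ((∏ i, (t i).1) * y.2.1) = c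
        then (1 : ℝ) else 0)) / Fintype.card (Z2 K d e n) := by
  classical
  unfold wn
  rw [Finset.natCast_card_filter, Finset.sum_product, sum_pi, ← Finset.mul_sum,
    Fintype.sum_prod_type, Fintype.card_prod, Fintype.card_fun, Fintype.card_fin,
    Fintype.card_coe, Fintype.card_coe]
  push_cast
  congr 2
  refine Finset.sum_congr rfl fun v _ => ?_
  rw [← Finset.sum_coe_sort]

end slots

/-- PIECE `CountOfCore` -/
theorem countOfCore : CountOfCore := by
  classical
  intro hB hC A Z _ _ Sr r ε hr hε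
  obtain ⟨w, hw⟩ := hC A Z Sr r ε hr hε
  refine ⟨w, ?_⟩
  intro α β hα hβ hαβ hπ j hj
  obtain ⟨d₀, hd₀⟩ := hw α β hα hβ hαβ hπ j hj
  refine ⟨max d₀ j, fun d hd K hK => ?_⟩
  have hdj : j ≤ (2 * r + 2) * d := by
    have : j ≤ d := (le_max_right _ _).trans hd
    nlinarith
  set N := 2 * r * (2 * r + 2) with hN
  set s := 2 * r with hs
  set e := (s + 2) * d - j with he
  set L := Sr.ht α + s * (s + 2) * d with hL
  obtain ⟨hX, hY, hCc, hsum⟩ := hd₀ d ((le_max_left _ _).trans hd) (K d) (K e) (K L)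
    (by rw [hK]) (by rw [hK]) (by rw [hK])
  have hne : ∀ i, Nonempty (Pt K N s d e L i) := by
    intro i
    rcases i with _ | i | i
    · obtain ⟨x, hx⟩ := Finset.card_pos.1 hCc
      exact ⟨⟨x, hx⟩⟩
    · obtain ⟨x, hx⟩ := Finset.card_pos.1 hX
      exact ⟨⟨x, hx⟩⟩
    · obtain ⟨x, hx⟩ := Finset.card_pos.1 hY
      exact ⟨⟨x, hx⟩⟩
  refine ⟨hne, ?_⟩
  have := hne
  intro U hU
  by_cases h0 : none ∈ U
  · -- `none ∈ U`
    set P : Finset (Fin N) := univ.filter (fun i => some (Sum.inl i) ∈ U) with hP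
    set R : Finset (Fin s) := univ.filter (fun i => some (Sum.inr i) ∈ U) with hR
    have hcard : 1 + P.card + R.card ≤ 2 * r := by
      have h1 : ({none} ∪ (P.image (fun i => (some (Sum.inl i) : Ix N s))) ∪
          (R.image (fun i => (some (Sum.inr i) : Ix N s)))) ⊆ U := by
        intro x hx
        rcases Finset.mem_union.1 hx with hx | hx
        · rcases Finset.mem_union.1 hx with hx | hx
          · rw [Finset.mem_singleton.1 hx]; exact h0
          · obtain ⟨i, hi, rfl⟩ := Finset.mem_image.1 hx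
            exact (Finset.mem_filter.1 hi).2
        · obtain ⟨i, hi, rfl⟩ := Finset.mem_image.1 hx
          exact (Finset.mem_filter.1 hi).2
      have h2 := (Finset.card_le_card h1).trans hU
      rw [Finset.card_union_of_disjoint, Finset.card_union_of_disjoint,
        Finset.card_image_of_injective, Finset.card_image_of_injective, Finset.card_singleton] at h2
      · exact h2
      · intro x y h; simpa using h
      · intro x y h; simpa using h
      · simp [Finset.disjoint_left]
      · rw [Finset.disjoint_left]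
        intro x hx hx'
        obtain ⟨i, _, rfl⟩ := Finset.mem_image.1 hx'
        simp at hx
    obtain ⟨P', hP1, _, hP2⟩ := Finset.exists_subsuperset_card_eq (Finset.subset_univ P)
      (show P.card ≤ 2 * r by omega) (by
        rw [Finset.card_univ, Fintype.card_fin, hN]; nlinarith)
    obtain ⟨R', hR1, _, hR2⟩ := Finset.exists_subsuperset_card_eq (Finset.subset_univ R)
      (show R.card ≤ 2 * r - 1 by omega) (by
        rw [Finset.card_univ, Fintype.card_fin, hs]; omega)
    obtain ⟨e1, he1⟩ := exists_split P' (a := 2 * r) (b := 2 * r * (2 * r + 1)) hP2 (by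
      rw [Fintype.card_fin, hN]; ring)
    obtain ⟨e2', he2'⟩ := exists_split R' (a := 2 * r - 1) (b := 1) hR2 (by
      rw [Fintype.card_fin, hs]; omega)
    set e2 : Fin s ≃ Fin (2 * r - 1) ⊕ Unit := e2'.trans
      (Equiv.sumCongr (Equiv.refl _) (Equiv.ofUnique (Fin 1) Unit)) with he2d
    have he2 : ∀ i, i ∈ R' ↔ ∃ l, e2 i = Sum.inl l := by
      intro i
      rw [he2' i]
      constructor
      · rintro ⟨l, hl⟩
        exact ⟨l, by rw [he2d, Equiv.trans_apply, hl]; rfl⟩
      · rintro ⟨l, hl⟩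
        rcases h : e2' i with l' | l'
        · exact ⟨l', rfl⟩
        · rw [he2d, Equiv.trans_apply, h] at hl
          cases hl
    set T : Finset (Ix N s) := {none} ∪ (P'.image (fun i => (some (Sum.inl i) : Ix N s))) ∪
      (R'.image (fun i => (some (Sum.inr i) : Ix N s))) with hT
    have hUT : U ⊆ T := by
      intro x hx
      rw [hT]
      rcases x with _ | i | i
      · simp
      · simp only [Finset.mem_union, Finset.mem_image]
        exact Or.inl (Or.inr ⟨i, hP1 (Finset.mem_filter.2 ⟨Finset.mem_univ _, hx⟩), rfl⟩)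
      · simp only [Finset.mem_union, Finset.mem_image]
        exact Or.inr ⟨i, hR1 (Finset.mem_filter.2 ⟨Finset.mem_univ _, hx⟩), rfl⟩
    refine (av_ce_mono hUT _).trans ?_
    have t0 : none ∈ T := by rw [hT]; simp
    have t1 : ∀ i, some (Sum.inl i) ∈ T ↔ ∃ l, e1 i = Sum.inl l := by
      intro i
      rw [← he1 i, hT]
      simp
    have t2 : ∀ i, some (Sum.inr i) ∈ T ↔ ∃ l, e2 i = Sum.inl l := by
      intro i
      rw [← he2 i, hT]
      simp
    have i1 : Nonempty {x // x ∈ K L} := hne none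
    obtain ⟨x0, hx0⟩ := Finset.card_pos.1 hX
    obtain ⟨y0, hy0⟩ := Finset.card_pos.1 hY
    have i2 : Nonempty {x // x ∈ K d} := ⟨⟨x0, hx0⟩⟩
    have i3 : Nonempty {x // x ∈ K e} := ⟨⟨y0, hy0⟩⟩
    rw [av_block (Ph K d e L e1 e2) _
      (fun z : Z1 K d e L (2 * r) (2 * r - 1) => |wn (K L) (K d) (K e) (2 * r * (2 * r + 1)) β
        (α * ∏ i, (z.2.1 i).1) (∏ i, (z.2.2 i).1) z.1.1 - 1|) (fun z y => by
        rw [ce_block (Ph K d e L e1 e2) T (fun z y z' y' => mix_Ph K d e L e1 e2 T t0 t1 t2 z y z' y'),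
          wn_eq]
        simp only [Wf_Ph])]
    have hcd : (Fintype.card (Z1 K d e L (2 * r) (2 * r - 1)) : ℝ) =
        (K L).card * ((K d).card ^ (2 * r) * (K e).card ^ (2 * r - 1)) := by
      rw [Fintype.card_prod, Fintype.card_prod, Fintype.card_fun, Fintype.card_fun,
        Fintype.card_fin, Fintype.card_fin, Fintype.card_coe, Fintype.card_coe, Fintype.card_coe]
      push_cast
      rfl
    have hpos : (0 : ℝ) < Fintype.card (Z1 K d e L (2 * r) (2 * r - 1)) := by
      exact_mod_cast Fintype.card_pos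
    rw [div_le_iff₀ hpos, hcd]
    refine le_trans (le_of_eq ?_) (hsum.trans (le_of_eq ?_))
    · rw [sum_pi, Fintype.sum_prod_type, Finset.sum_comm]
      rw [Fintype.sum_prod_type]
      refine Finset.sum_congr rfl fun u _ => ?_
      rw [sum_pi]
      refine Finset.sum_congr rfl fun t _ => ?_
      rw [← Finset.sum_coe_sort (K L)]
    · ring
  · -- `none ∉ U`
    set S : Finset (Ix N s) := univ.erase none with hS
    have hUS : U ⊆ S := by
      intro x hx
      rw [hS, Finset.mem_erase]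
      exact ⟨fun h => h0 (h ▸ hx), Finset.mem_univ _⟩
    refine (av_ce_mono hUS _).trans ?_
    have hM : ∀ (D : ℕ) (x : A), x ∈ K D ↔ Sr.mon x ∧ Sr.ht x = D ∧
        IsCoprime x (α * β) := by
      intro D x
      rw [hK]
      exact (hB A Z Sr).2.1 _ _ _
    have key : ∀ x : (∀ i, Pt K N s d e L i), ce S (Wf K α β N s d e L) x = 1 := by
      intro x
      set a := ∏ i, (x (some (Sum.inl i))).1 with ha
      set b := ∏ i, (x (some (Sum.inr i))).1 with hb
      have hx1 : ∀ i, Sr.mon (x (some (Sum.inl i))).1 ∧ Sr.ht (x (some (Sum.inl i))).1 = d ∧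
          IsCoprime (x (some (Sum.inl i))).1 (α * β) := by
        intro i
        have h1 : (x (some (Sum.inl i))).1 ∈ K d := (x (some (Sum.inl i))).2
        exact (hM _ _).1 h1
      have hx2 : ∀ i, Sr.mon (x (some (Sum.inr i))).1 ∧ Sr.ht (x (some (Sum.inr i))).1 = e ∧
          IsCoprime (x (some (Sum.inr i))).1 (α * β) := by
        intro i
        have h1 : (x (some (Sum.inr i))).1 ∈ K e := (x (some (Sum.inr i))).2
        exact (hM _ _).1 h1
      have ha1 : Sr.mon a := mon_prod Sr _ _ fun i _ => (hx1 i).1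
      have hb1 : Sr.mon b := mon_prod Sr _ _ fun i _ => (hx2 i).1
      have ha2 : Sr.ht a = N * d := by
        rw [ha, ht_prod Sr _ _ fun i _ => (hx1 i).1]
        simp [(hx1 _).2.1]
      have hb2 : Sr.ht b = s * e := by
        rw [hb, ht_prod Sr _ _ fun i _ => (hx2 i).1]
        simp [(hx2 _).2.1]
      have ha3 : IsCoprime a (α * β) := IsCoprime.prod_left fun i _ => (hx1 i).2.2
      have hb3 : IsCoprime b (α * β) := IsCoprime.prod_left fun i _ => (hx2 i).2.2
      have hdeg1 : Sr.ht (α * a) = L := by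
        rw [ht_mul Sr (Sr.mon_ne _ hα) (Sr.mon_ne _ ha1), ha2]
      have hdeg2 : Sr.ht (β * b) < Sr.ht (α * a) := by
        rw [hdeg1, ht_mul Sr (Sr.mon_ne _ hβ) (Sr.mon_ne _ hb1), hb2, he, Nat.mul_sub]
        have : s * j ≤ s * ((s + 2) * d) := Nat.mul_le_mul_left _ hdj
        have e3 : s * (s + 2) * d = s * ((s + 2) * d) := by ring
        omega
      have hmem : α * a + β * b ∈ K L := by
        rw [hM]
        refine ⟨?_, ?_, ?_⟩
        · exact Sr.mon_add _ _ (Sr.mon_mul _ _ hα ha1)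
            (Sr.mon_ne _ (Sr.mon_mul _ _ hβ hb1)) hdeg2
        · rw [ht_add_eq Sr (Sr.mon_ne _ (Sr.mon_mul _ _ hα ha1))
            (Sr.mon_ne _ (Sr.mon_mul _ _ hβ hb1)) hdeg2, hdeg1]
        · refine IsCoprime.mul_right ?_ ?_
          · have h1 : IsCoprime (β * b) α :=
              IsCoprime.mul_left hαβ.symm (hb3.of_mul_right_left)
            have h2 := h1.add_mul_left_left a
            rwa [add_comm] at h2
          · have h1 : IsCoprime (α * a) β :=
              IsCoprime.mul_left hαβ (ha3.of_mul_right_right)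
            exact h1.add_mul_left_left b
      -- the block decomposition
      let Ψ : (∀ i : Fin N ⊕ Fin s, Pt K N s d e L (some i)) × Pt K N s d e L none ≃
          ∀ i, Pt K N s d e L i :=
        (Equiv.prodComm _ _).trans (Equiv.piOptionEquivProd (β := fun i => Pt K N s d e L i)).symm
      have hΨ : ∀ z y z' y', mix S (Ψ (z, y)) (Ψ (z', y')) = Ψ (z, y') := by
        intro z y z' y'
        funext i
        unfold mix
        rcases i with _ | i
        · rw [if_neg (by rw [hS]; simp)]; rfl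
        · rw [if_pos (by rw [hS]; simp)]; rfl
      have hx : x = Ψ (fun i => x (some i), x none) := by
        funext i
        rcases i with _ | i
        · rfl
        · rfl
      rw [hx, ce_block Ψ S hΨ]
      have hW : ∀ y : Pt K N s d e L none, Wf K α β N s d e L (Ψ (fun i => x (some i), y)) =
          if y = ⟨α * a + β * b, hmem⟩ then ((K L).card : ℝ) else 0 := by
        intro y
        unfold Wf
        have e1 : ∏ i, (Ψ (fun i => x (some i), y) (some (Sum.inl i))).1 = a := rfl
        have e2 : ∏ i, (Ψ (fun i => x (some i), y) (some (Sum.inr i))).1 = b := rfl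
        have e3 : (Ψ (fun i => x (some i), y) none) = y := rfl
        rw [e1, e2, e3]
        by_cases h1 : α * a + β * b = y.1
        · rw [if_pos h1, if_pos (Subtype.ext h1.symm)]
        · rw [if_neg h1, if_neg (fun h2 => h1 (by rw [h2]))]
      simp only [hW]
      rw [Finset.sum_ite_eq' Finset.univ (⟨α * a + β * b, hmem⟩ : Pt K N s d e L none)]
      rw [if_pos (Finset.mem_univ _)]
      have hcN : Fintype.card (Pt K N s d e L none) = (K L).card := Fintype.card_coe _
      rw [hcN]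
      exact div_self (by exact_mod_cast hCc.ne')
    have : (fun x => |ce S (Wf K α β N s d e L) x - 1|) = fun _ => (0 : ℝ) := by
      funext x; rw [key x]; simp
    rw [this]
    unfold av
    simp [hε.le]

end Pool.Agent.T9h71.GG
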